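import Pool.Agent.QPI.Stmts

/-!
# Squad QPI, row B_MAP: base change
-/

set_option autoImplicit false

namespace Pool.Agent.QPI.H76

open MvPolynomial

theorem map_th {S S' : Type} [CommRing S] [CommRing S'] (φ : S →+* S') (g : PowerSeries S) :
    PowerSeries.map φ (th g) = th (PowerSeries.map φ g) := by
  ext a
  simp [th]

theorem map_inv {S S' : Type} [CommRing S] [CommRing S'] (φ : S →+* S') (g : PowerSeries S)
    (hg : PowerSeries.constantCoeff g = 1) :
    PowerSeries.map φ (PowerSeries.invOfUnit g 1) =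
      PowerSeries.invOfUnit (PowerSeries.map φ g) 1 := by
  have h1 : g * PowerSeries.invOfUnit g 1 = 1 := PowerSeries.mul_invOfUnit g 1 (by simp [hg])
  have hg' : PowerSeries.constantCoeff (PowerSeries.map φ g) = 1 := by
    rw [← PowerSeries.coeff_zero_eq_constantCoeff_apply, PowerSeries.coeff_map,
      PowerSeries.coeff_zero_eq_constantCoeff_apply, hg, map_one]
  have h2 : PowerSeries.map φ g * PowerSeries.invOfUnit (PowerSeries.map φ g) 1 = 1 :=
    PowerSeries.mul_invOfUnit _ 1 (by simp [hg'])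
  have h3 : PowerSeries.map φ g * PowerSeries.map φ (PowerSeries.invOfUnit g 1) = 1 := by
    rw [← map_mul, h1, map_one]
  calc PowerSeries.map φ (PowerSeries.invOfUnit g 1)
      = (PowerSeries.map φ g * PowerSeries.invOfUnit (PowerSeries.map φ g) 1) *
          PowerSeries.map φ (PowerSeries.invOfUnit g 1) := by rw [h2, one_mul]
    _ = (PowerSeries.map φ g * PowerSeries.map φ (PowerSeries.invOfUnit g 1)) *
          PowerSeries.invOfUnit (PowerSeries.map φ g) 1 := by ring
    _ = PowerSeries.invOfUnit (PowerSeries.map φ g) 1 := by rw [h3, one_mul]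

theorem map_dlog {S S' : Type} [CommRing S] [CommRing S'] (φ : S →+* S') {m : ℕ}
    (f : Fin m → PowerSeries S) (e : Fin m → ℕ)
    (hf : ∀ j, PowerSeries.constantCoeff (f j) = 1) :
    PowerSeries.map φ (dlog f e) = dlog (fun j => PowerSeries.map φ (f j)) e := by
  unfold dlog
  rw [map_sum]
  refine Finset.sum_congr rfl fun j _ => ?_
  rw [map_mul, map_mul, map_natCast, map_th, map_inv φ (f j) (hf j)]

theorem map_Pa {S S' : Type} [CommRing S] [CommRing S'] (φ : S →+* S') (D P : PowerSeries S)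
    (a : ℕ) :
    PowerSeries.map φ (Pa D P a) = Pa (PowerSeries.map φ D) (PowerSeries.map φ P) a := by
  induction a with
  | zero => rfl
  | succ a ih => rw [Pa, Pa, map_add, map_mul, map_th, ih]

theorem map_WW {S S' τ : Type} [CommRing S] [CommRing S'] (φ : S →+* S') {m s : ℕ}
    (R : τ → PowerSeries S) (f : Fin m → PowerSeries S) (e : τ → Fin m → ℕ)
    (t : Fin s → τ) (hf : ∀ j, PowerSeries.constantCoeff (f j) = 1) :
    PowerSeries.map φ (WW R f e t) =
      WW (fun i => PowerSeries.map φ (R i)) (fun j => PowerSeries.map φ (f j)) e t := by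
  unfold WW
  rw [RingHom.map_det]
  congr 1
  ext1 a b
  rw [RingHom.mapMatrix_apply, Matrix.map_apply, Matrix.of_apply, Matrix.of_apply, map_Pa,
    map_dlog φ f _ hf]

theorem algebraMap_ps {S : Type} [CommRing S] [Algebra ℚ S] (a : ℚ) :
    algebraMap ℚ (PowerSeries S) a = PowerSeries.C (algebraMap ℚ S a) := by
  rw [Algebra.algebraMap_eq_smul_one, Algebra.algebraMap_eq_smul_one]
  ext n
  rw [PowerSeries.coeff_smul, PowerSeries.coeff_C, PowerSeries.coeff_one]
  split_ifs <;> simp

theorem map_hat (N₁ N₂ : ℕ) (S : Type) [CommRing S] [Algebra ℚ S] (φ : Fin N₁ ⊕ Fin N₂ → S)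
    (p : MvPolynomial (Fin N₁ ⊕ Fin N₂) ℚ) :
    PowerSeries.map (aeval φ : MvPolynomial (Fin N₁ ⊕ Fin N₂) ℚ →ₐ[ℚ] S).toRingHom (hat X p) =
      hat φ p := by
  induction p using MvPolynomial.induction_on with
  | C a =>
    rw [hat, hat, MvPolynomial.aeval_C, MvPolynomial.aeval_C, algebraMap_ps, algebraMap_ps,
      PowerSeries.map_C]
    congr 1
    exact AlgHom.commutes _ a
  | add p q hp hq => rw [map_add, map_add, hp, hq, map_add]
  | mul_X p v hp =>
    rw [map_mul, map_mul, hp, map_mul]
    congr 1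
    rw [hat, hat, MvPolynomial.aeval_X, MvPolynomial.aeval_X, map_mul, map_pow, PowerSeries.map_X,
      PowerSeries.map_C]
    congr 2
    exact MvPolynomial.aeval_X φ v

theorem b_map : MapStmt :=
  ⟨fun _ _ _ _ _ φ _ _ R f e t hf => map_WW φ R f e t hf,
    fun N₁ N₂ S _ _ φ p => map_hat N₁ N₂ S φ p⟩

end Pool.Agent.QPI.H76
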